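import Pool.Agent.helper58.FI4.SpecC

set_option autoImplicit false

namespace Pool.Agent.FI4C

open Pool.Agent.helper58.DC Pool.Agent.DI Pool.Agent.GR Pool.Agent.OB Pool.Agent.DR Pool.Agent.FI Pool.Agent.FI3 Pool.Agent.FI4

theorem CFX (hZT4 : ZT4_stmt) (hB2 : B2_stmt) (hIF : IF_stmt) : CFX_stmt := by
  classical
  intro M G _ _ χ m hm
  have : Fintype G := Fintype.ofFinite G
  have hS : (Blk M χ (⊤ : Subgroup G)).Finite := (hIF G ⊤).1.subset (fun ψ h => h.1)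
  have hL : {ψ : G → ℂ | ψ ∈ Blk M χ (⊤ : Subgroup G) ∧ PR m ψ} =
      ((hS.toFinset.filter (fun ψ => PR m ψ) : Finset (G → ℂ)) : Set (G → ℂ)) := by
    ext ψ
    simp [Set.Finite.mem_toFinset]
  have hR : ∑ᶠ g ∈ ((⊤ : Subgroup G) : Set G), Sf (Blk M χ (⊤ : Subgroup G)) (g ^ m) g =
      ∑ g : G, ∑ ψ ∈ hS.toFinset, ψ (g ^ m) * ψ g⁻¹ := by
    rw [Subgroup.coe_top, finsum_mem_univ, finsum_eq_sum_of_fintype]
    refine Finset.sum_congr rfl fun g _ => ?_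
    unfold Sf
    rw [finsum_mem_eq_finite_toFinset_sum _ hS]
  have hkey : ∀ ψ ∈ hS.toFinset, ∑ g : G, ψ (g ^ m) * ψ g⁻¹ = if PR m ψ then (Nat.card G : ℂ) else 0 := by
    intro ψ hψ
    rw [Set.Finite.mem_toFinset] at hψ
    have h1 : ψ ∈ IrrOn (⊤ : Subgroup G) := hψ.1
    have h2 := hZT4 G m hm ⊤ ψ h1
    obtain ⟨-, -, -, -, h3⟩ := (hB2 G ⊤).2 _ h2
    have h4 := h3 ψ h1
    rw [finsum_eq_sum_of_fintype, Subgroup.card_top] at h4
    rw [h4]
    by_cases hP : PR m ψ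
    · rw [if_pos hP, if_pos (funext hP)]
    · rw [if_neg hP, if_neg (fun h => hP (fun g => congrFun h g))]
  rw [hL, Set.ncard_coe_finset, hR, Finset.sum_comm, Finset.sum_congr rfl hkey, ← Finset.sum_filter,
    Finset.sum_const, nsmul_eq_mul, mul_comm]

end Pool.Agent.FI4C
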